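import Pool.Agent.R729.KP.FinalK

/-!
# MP_f91e62_co (Q1): the exponents of `m_{k,l}(n)`

* For all `k ≥ 3`, `l ≥ 1`, `ε > 0`: `m_{k,l}(n) ≤ C n ^ ((k-2)/l + ε)`.
* So for `k = 3` and `k = 4` and every order `l` the exponent is the conjectured one, `⌊k/2⌋ / l`.

The proof of the upper bound.  Points are words `x` of length `l` over a set of `b = p ^ h`
polynomials of degree `< h` over the field `F` with `p` elements.  Coordinate `i` covers a
`k`-set `X` at most once, and it does so if the `i`-th letters are different, or if the points of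
`X` with the same `i`-th letter are told apart by the values of the other letters `x j` at points
`t_j` of `F`.  The points `t_j` are chosen by a fixed rule from the set `B_i` of all points of `F`
at which two different `i`-th letters of members of `X` agree; this set is known to the
one vertex whose `i`-th letter is not fixed by the member.  The rule is such that the digraph
`i → j` if `t_j(B_i) ∈ B_j` never has a directed cycle, whatever the small sets `B_i` are
(`Pool.Agent.R729.KP.sinkN`); a sink of the digraph is a coordinate that covers `X`.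
-/

namespace Pool.Agent.Results.MP_f91e62_co.Exponents

open Pool.Agent.R729.KP

theorem result :
    (∀ k l : ℕ, 3 ≤ k → 1 ≤ l →
      (∀ n : ℕ, 1 ≤ n → ∃ H : Fin (minCov k l n) → Fin k → Finset (Fin n),
        IsCovering k l n (minCov k l n) H) ∧
      ∀ ε : ℝ, 0 < ε → ∃ C : ℝ, 0 < C ∧ ∀ n : ℕ, 1 ≤ n →
        (minCov k l n : ℝ) ≤ C * (n : ℝ) ^ (((k - 2 : ℕ) : ℝ) / l + ε)) ∧
    (∀ k l : ℕ, k = 3 ∨ k = 4 → 1 ≤ l →
      (∃ c : ℝ, 0 < c ∧ ∀ n : ℕ, k ≤ n →
        c * (n : ℝ) ^ (((k / 2 : ℕ) : ℝ) / l) ≤ minCov k l n) ∧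
      ∀ ε : ℝ, 0 < ε → ∃ C : ℝ, 0 < C ∧ ∀ n : ℕ, 1 ≤ n →
        (minCov k l n : ℝ) ≤ C * (n : ℝ) ^ (((k / 2 : ℕ) : ℝ) / l + ε)) :=
  minCov_main

end Pool.Agent.Results.MP_f91e62_co.Exponents
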