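import Pool.Agent.R82.KP.Low

/-! # The lower half of the conjecture, for every `k` and every order of the covering -/

namespace Pool.Agent.Results.MP_f91e62_co.LowerBound

open Pool.Agent.R82.KP

theorem one_le {n k l m : ℕ} (hkn : k ≤ n) (H : Fin m → Fin k → Finset (Fin n))
    (hH : IsCovering n k l m H) : 1 ≤ m := by
  classical
  obtain ⟨e, -, he⟩ := Finset.exists_subset_card_eq (s := (Finset.univ : Finset (Fin n)))
    (n := k) (by simpa using hkn)
  have h1 := (hH.2.2 e he).1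
  have h2 : (Finset.univ.filter fun i => IsEdge (H i) e).card ≤ m := by
    simpa using Finset.card_filter_le (Finset.univ : Finset (Fin m)) (fun i => IsEdge (H i) e)
  omega

theorem nat_bound {n k l m : ℕ} (hk : 2 ≤ k) (hl : 1 ≤ l) (hkn : k ≤ n)
    (H : Fin m → Fin k → Finset (Fin n)) (hH : IsCovering n k l m H) :
    n ^ (k / 2) ≤ (k ^ k * (m * (k.factorial + 2))) ^ l := by
  have hm := one_le hkn H hH
  have hj : 1 ≤ k / 2 := by omega
  have hK : 1 ≤ m * (k.factorial + 2) := Nat.one_le_iff_ne_zero.2 (by positivity)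
  have hkj : k ^ (k / 2) ≤ (k ^ k) ^ l := by
    calc k ^ (k / 2) ≤ k ^ k := Nat.pow_le_pow_right (by omega) (by omega)
      _ ≤ (k ^ k) ^ l := Nat.le_self_pow (by omega) _
  rcases Nat.lt_or_ge ((n - 1) / (k / 2)) 2 with hq | hq
  · have h1 : n - 1 < (k / 2) * 2 := by
      have := Nat.lt_mul_of_div_lt hq (by omega : 0 < k / 2)
      linarith [mul_comm 2 (k / 2)]
    have h2 : n = k := by omega
    subst h2
    calc n ^ (n / 2) ≤ (n ^ n) ^ l := hkj
      _ ≤ (n ^ n * (m * (n.factorial + 2))) ^ l :=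
        Nat.pow_le_pow_left (Nat.le_mul_of_pos_right _ hK) _
  · set q := (n - 1) / (k / 2) with hqdef
    have hlt : (k / 2) * q < n := by
      have : (k / 2) * q ≤ n - 1 := Nat.mul_div_le (n - 1) (k / 2)
      omega
    have hb := rank_bound (j := k / 2) (q := q) (by omega) (by omega) hlt hq H hH
    have hn : n ≤ k * q := by
      have h1 : n - 1 < (k / 2) * (q + 1) := by
        rw [hqdef, mul_comm]
        exact Nat.lt_mul_of_div_lt (Nat.lt_succ_self _) (by omega)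
      have h2 : (k / 2) * (q + 1) ≤ (k / 2) * (2 * q) := Nat.mul_le_mul_left _ (by omega)
      have h3 : (k / 2) * (2 * q) ≤ k * q := by
        rw [← mul_assoc]
        exact Nat.mul_le_mul_right _ (by omega)
      omega
    have h4 : (m * k.factorial + 1) ^ l + 1 ≤ (m * (k.factorial + 2)) ^ l := by
      calc (m * k.factorial + 1) ^ l + 1 = (m * k.factorial + 1) ^ l + 1 ^ l := by rw [one_pow]
        _ ≤ (m * k.factorial + 1 + 1) ^ l := pow_add_pow_le (by positivity) (by positivity) (by omega)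
        _ ≤ (m * (k.factorial + 2)) ^ l := Nat.pow_le_pow_left (by nlinarith) _
    calc n ^ (k / 2) ≤ (k * q) ^ (k / 2) := Nat.pow_le_pow_left hn _
      _ = k ^ (k / 2) * q ^ (k / 2) := mul_pow _ _ _
      _ ≤ (k ^ k) ^ l * (m * (k.factorial + 2)) ^ l := Nat.mul_le_mul hkj (hb.trans h4)
      _ = (k ^ k * (m * (k.factorial + 2))) ^ l := (mul_pow _ _ _).symm

/-- For all `k ≥ 2` and `l ≥ 1` there is `c > 0` such that every `k`-partite covering of order
`l` of the complete `k`-graph on `n ≥ k` vertices has at least `c n ^ (⌊k / 2⌋ / l)` members. -/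
theorem result : ∀ k l : ℕ, 2 ≤ k → 1 ≤ l → ∃ c : ℝ, 0 < c ∧ ∀ n : ℕ, k ≤ n →
    c * (n : ℝ) ^ (((k / 2 : ℕ) : ℝ) / (l : ℝ)) ≤ (minCovering k l n : ℝ) := by
  intro k l hk hl
  refine ⟨1 / (((k ^ k : ℕ) : ℝ) * ((k.factorial + 2 : ℕ) : ℝ)), by positivity, fun n hkn => ?_⟩
  obtain ⟨H, hH⟩ := Nat.sInf_mem (covering_nonempty k l n hl)
  have hb := nat_bound hk hl hkn H hH
  change n ^ (k / 2) ≤ (k ^ k * (minCovering k l n * (k.factorial + 2))) ^ l at hb
  set m := minCovering k l n with hm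
  have hb' : ((n : ℝ)) ^ (k / 2) ≤ ((((k ^ k : ℕ) : ℝ) * ((m : ℝ) * ((k.factorial + 2 : ℕ) : ℝ)))) ^ l := by
    exact_mod_cast hb
  have h1 : (n : ℝ) ^ (((k / 2 : ℕ) : ℝ) / (l : ℝ)) = ((n : ℝ) ^ (k / 2)) ^ ((l : ℝ)⁻¹) := by
    rw [← Real.rpow_natCast, ← Real.rpow_mul (by positivity), div_eq_mul_inv]
  have h2 : (n : ℝ) ^ (((k / 2 : ℕ) : ℝ) / (l : ℝ))
      ≤ ((k ^ k : ℕ) : ℝ) * ((m : ℝ) * ((k.factorial + 2 : ℕ) : ℝ)) := by
    rw [h1]
    calc ((n : ℝ) ^ (k / 2)) ^ ((l : ℝ)⁻¹)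
        ≤ ((((k ^ k : ℕ) : ℝ) * ((m : ℝ) * ((k.factorial + 2 : ℕ) : ℝ))) ^ l) ^ ((l : ℝ)⁻¹) :=
          Real.rpow_le_rpow (by positivity) hb' (by positivity)
      _ = _ := Real.pow_rpow_inv_natCast (by positivity) (by omega)
  have h3 : 0 < ((k ^ k : ℕ) : ℝ) * ((k.factorial + 2 : ℕ) : ℝ) := by positivity
  rw [one_div, inv_mul_le_iff₀ h3]
  calc (n : ℝ) ^ (((k / 2 : ℕ) : ℝ) / (l : ℝ)) ≤ _ := h2
    _ = _ := by ring

end Pool.Agent.Results.MP_f91e62_co.LowerBound
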